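import Pool.Agent.Helper77.RL.Goals

/-! RL: L_DES, descent of classes. -/

namespace Pool.Agent.Helper93.RL

open NumberField Polynomial Module Pool.Agent.Helper51.RP Pool.Agent.Helper77.RL

section

variable {M M' : Type} [Field M] [Field M'] [Algebra M M']

/-- The action of an automorphism on units. -/
def gm (g : M' ≃ₐ[M] M') : M'ˣ →* M'ˣ := Units.map ((g : M' →+* M') : M' →* M')

theorem gm_val (g : M' ≃ₐ[M] M') (x : M'ˣ) : ((gm g x : M'ˣ) : M') = g (x : M') := rfl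

theorem gm_mul (g h : M' ≃ₐ[M] M') (x : M'ˣ) : gm (g * h) x = gm g (gm h x) := by
  ext; rfl

theorem smul_eq (g : M' ≃ₐ[M] M') (x : M'ˣ) : g • x = gm g x := by
  ext; rfl

theorem gm_up (g : M' ≃ₐ[M] M') (x : Mˣ) : gm g (up x) = (up x : M'ˣ) := by
  ext
  exact g.commutes (x : M)

theorem up_val (x : Mˣ) : ((up x : M'ˣ) : M') = algebraMap M M' (x : M) := rfl

theorem up_inj {x y : Mˣ} (h : (up x : M'ˣ) = up y) : x = y := by
  ext
  have h1 : algebraMap M M' (x : M) = algebraMap M M' (y : M) := by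
    have := congrArg (fun u : M'ˣ => (u : M')) h
    exact this
  exact (algebraMap M M').injective h1

theorem up_pow (x : Mˣ) (n : ℕ) : (up (x ^ n) : M'ˣ) = up x ^ n := by
  unfold up
  rw [map_pow]

theorem exists_up [IsGalois M M'] [FiniteDimensional M M'] (z : M'ˣ)
    (hz : ∀ g : M' ≃ₐ[M] M', gm g z = z) : ∃ x : Mˣ, (up x : M'ˣ) = z := by
  have h1 : (z : M') ∈ Set.range (algebraMap M M') := by
    rw [IsGalois.mem_range_algebraMap_iff_fixed]
    intro g
    have := congrArg (fun u : M'ˣ => (u : M')) (hz g)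
    exact this
  obtain ⟨x, hx⟩ := h1
  have hx0 : x ≠ 0 := by
    rintro rfl
    rw [map_zero] at hx
    exact z.ne_zero hx.symm
  refine ⟨Units.mk0 x hx0, ?_⟩
  ext
  rw [up_val, Units.val_mk0, hx]

end

theorem l_des (h1 : L_POL) : L_DES := by
  intro p _ K M M' _ _ _ _ _ _ _ _ m n δ δ₁ P _hP hD hT x hx hxg
  have hgal : IsGalois M M' := hD.gal
  obtain ⟨i, hi, hξ⟩ := hT
  -- the polynomial `Q`
  have hcop : IsCoprime (X - C (i : ZMod p)) P := by
    rw [(irreducible_X_sub_C (i : ZMod p)).coprime_iff_not_dvd, dvd_iff_isRoot]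
    exact hi
  obtain ⟨a, b, hab⟩ := hcop
  set Q : ℤ[X] := lift a * (X - C (i : ℤ)) with hQ
  have hmap : Q.map (Int.castRingHom (ZMod p)) = 1 + P * (-b) := by
    rw [hQ, Polynomial.map_mul, lift_map, Polynomial.map_sub, map_X, map_C]
    have : (Int.castRingHom (ZMod p)) (i : ℤ) = (i : ZMod p) := by simp
    rw [this]
    linear_combination hab
  -- commutation
  have hgc : ∀ (g : M' ≃ₐ[M] M') (R : ℤ[X]) (y : M'ˣ), gm g (act δ₁ R y) = act δ₁ R (gm g y) := by
    intro g R y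
    exact act_map (g : M' →+* M') δ₁ δ₁ (fun y => hD.comm g y) R y
  have hup : ∀ (R : ℤ[X]) (y : Mˣ), (up (act δ R y) : M'ˣ) = act δ₁ R (up y) := by
    intro R y
    exact act_map (algebraMap M M') δ δ₁ (fun y => (hD.ext y).symm) R y
  -- the roots of unity
  have hkill : ∀ ξ : M'ˣ, ξ ^ p = 1 → act δ₁ Q ξ = 1 := by
    intro ξ hp
    have e1 : act δ₁ (X - C (i : ℤ)) ξ = 1 := by
      rw [act_sub, act_X, act_C, zpow_natCast, div_eq_one]
      ext
      rw [Units.val_pow_eq_pow_val]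
      refine hξ (ξ : M') 1 ?_
      rw [pow_one, ← Units.val_pow_eq_pow_val, hp, Units.val_one]
    rw [hQ, act_mul, e1, map_one]
  -- the cocycle
  have hxg' : ∀ g : M' ≃ₐ[M] M', ∃ y : M'ˣ, gm g x = x * y ^ p := by
    intro g
    obtain ⟨y, hy⟩ := hxg g
    refine ⟨y, ?_⟩
    rw [← hy]
    exact (mul_div_cancel x (gm g x)).symm
  choose y hy using hxg'
  have hcoc : groupCohomology.IsMulCocycle₁ (fun g : M' ≃ₐ[M] M' => act δ₁ Q (y g)) := by
    intro g h
    rw [smul_eq, hgc]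
    have e1 : (y (g * h)) ^ p = (gm g (y h) * y g) ^ p := by
      have e2 := hy (g * h)
      rw [gm_mul, hy h, map_mul, hy g, map_pow, mul_assoc] at e2
      have e3 := mul_left_cancel e2
      rw [← e3, mul_pow, mul_comm]
    have e4 : (y (g * h) / (gm g (y h) * y g)) ^ p = 1 := by
      rw [div_pow, e1, div_self']
    have e5 := hkill _ e4
    rw [_root_.map_div, div_eq_one, map_mul] at e5
    exact e5
  obtain ⟨t, ht⟩ := groupCohomology.isMulCoboundary₁_of_isMulCocycle₁_of_aut_to_units _ hcoc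
  have ht' : ∀ g : M' ≃ₐ[M] M', gm g t = act δ₁ Q (y g) * t := by
    intro g
    have e1 := ht g
    rw [smul_eq, div_eq_iff_eq_mul] at e1
    exact e1
  -- descent of `z`
  have hfix : ∀ g : M' ≃ₐ[M] M', gm g (act δ₁ Q x / t ^ p) = act δ₁ Q x / t ^ p := by
    intro g
    rw [_root_.map_div, map_pow, ht', hgc, hy, map_mul, map_pow, mul_pow]
    rw [mul_comm (act δ₁ Q x), mul_div_mul_left_eq_div]
  obtain ⟨x₁, hx₁⟩ := exists_up _ hfix
  obtain ⟨s, hs⟩ := hx
  rw [← act_lift] at hs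
  set r : M'ˣ := act δ₁ Q s / act δ₁ (lift P) t with hr
  have hrp : (up (act δ (lift P) x₁) : M'ˣ) = r ^ p := by
    rw [hup, hx₁, _root_.map_div, map_pow, act_comm, hs, map_pow, hr, div_pow]
  have hrfix : ∀ g : M' ≃ₐ[M] M', gm g (act δ₁ Q r) = act δ₁ Q r := by
    intro g
    have e1 : (gm g r / r) ^ p = 1 := by
      rw [div_pow, ← map_pow, ← hrp, gm_up, div_self']
    have e2 := hkill _ e1
    rw [_root_.map_div, div_eq_one] at e2
    rw [hgc, e2]
  obtain ⟨r₀, hr₀⟩ := exists_up _ hrfix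
  refine ⟨act δ Q x₁, ⟨r₀, ?_⟩, ?_⟩
  · apply up_inj (M' := M')
    rw [← act_lift, act_comm, hup, hrp, map_pow, up_pow, hr₀]
  · obtain ⟨y₁, hy₁⟩ := h1 p K M' δ₁ P (-b) Q hmap x ⟨s, by rw [← act_lift]; exact hs⟩
    refine ⟨act δ₁ Q t / (y₁ * act δ₁ Q y₁), ?_⟩
    rw [hup, hx₁, _root_.map_div, map_pow, hy₁, map_mul, map_pow, hy₁, div_pow, mul_pow]
    rw [div_div_eq_mul_div, mul_assoc, mul_div_mul_left_eq_div]

end Pool.Agent.Helper93.RL
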