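import Pool.Agent.Helper77.RL.Goals2
import Pool.Agent.Helper74.RD.RSQ

/-!
# Project RL (MP_fc6b1e_nt), part II: the theorem `L_RSQ`
-/

namespace Pool.Agent.Helper93.RL

open NumberField Polynomial Module IsDedekindDomain Pool.Agent.Helper51.SigLeo
open Pool.Agent.Helper51.RP Pool.Agent.Helper76.RD Pool.Agent.Helper77.RL
open Pool.Agent.Helper42.RD (IsDat TSet E_TOR)
open Pool.Agent.Helper74.RD (tset_eq phi_pow exists_fix)

/-- The primes below a finite set are finitely many. -/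
theorem below_finite {K M : Type} [Field K] [NumberField K] [Field M] [NumberField M] [Algebra K M]
    {R : Set (HeightOneSpectrum (𝓞 M))} (hR : R.Finite) :
    {v : HeightOneSpectrum (𝓞 K) | ∃ w ∈ R, Above w v}.Finite := by
  have h1 : {v : HeightOneSpectrum (𝓞 K) | ∃ w ∈ R, Above w v} =
      ⋃ w ∈ R, {v : HeightOneSpectrum (𝓞 K) | Above w v} := by
    ext v
    simp only [Set.mem_ofPred_eq, Set.mem_iUnion, exists_prop]
  rw [h1]
  refine hR.biUnion fun w _ => ?_
  refine Set.Subsingleton.finite ?_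
  intro v hv v' hv'
  apply HeightOneSpectrum.ext
  exact (Eq.symm hv).trans hv'

theorem l_rsq (h1 : S_PHI) (h2 : D_COQ) (h3 : E_TOR) (h4 : E_FRB) (h5 : L_INM) : L_RSQ := by
  classical
  intro p hpf K _ _ ιinf ιp L M _ _ hcop hnot ι hι S χ₀ c hCM hOrd hinj hc
  have hchar : CharZero (AlgebraicClosure K) :=
    charZero_of_injective_algebraMap (algebraMap K (AlgebraicClosure K)).injective
  obtain ⟨i₀⟩ := hι
  have htc : IsTotallyComplex K := Pool.Agent.Helper50.RS.totallyComplex_of_cm (hCM i₀)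
  have hne : Nonempty (AlgebraicClosure ℚ →+* ℂ_[p]) :=
    Pool.Agent.Helper50.RS.nonempty_hom ℚ ℂ_[p]
  have hcl : ∀ i, PlaceClosed (TSet ιinf ιp (S i)) := fun i => by
    rw [tset_eq]
    exact Pool.Agent.Helper50.RS.tset_closed ιinf ιp (S i) (hOrd i)
  have hcard : ∀ i, finrank ℚ K = 2 * (TSet ιinf ιp (S i)).ncard := fun i => by
    rw [tset_eq, Pool.Agent.Helper50.RS.tset_ncard,
      Pool.Agent.Helper50.RS.two_mul_ncard_cm (hCM i)]
  have hinj' : ∀ i, Function.Injective ((Units.coeHom ℂ_[p]).comp (χ₀ i)) := by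
    intro i x y hxy
    apply hinj i
    exact Units.ext hxy
  have hcyc : IsCyclic (M ≃ₐ[K] M) := isCyclic_of_injective_ringHom _ (hinj' i₀)
  obtain ⟨δ, hδ⟩ := IsCyclic.exists_generator (α := (M ≃ₐ[K] M))
  have horder : orderOf δ = finrank K M := by
    rw [orderOf_eq_card_of_forall_mem_zpowers hδ, IsGalois.card_aut_eq_finrank]
  have hm0 : 0 < finrank K M := finrank_pos
  have hprim : ∀ i, IsPrimitiveRoot ((χ₀ i δ : ℂ_[p]ˣ) : ℂ_[p]) (finrank K M) := by
    intro i
    have h4 : orderOf ((χ₀ i δ : ℂ_[p]ˣ) : ℂ_[p]) = finrank K M := by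
      rw [← horder]
      exact orderOf_injective ((Units.coeHom ℂ_[p]).comp (χ₀ i)) (hinj' i) δ
    rw [← h4]
    exact IsPrimitiveRoot.orderOf _
  -- the degree is larger than 1
  have hlt : 1 < finrank K M := by
    by_contra hcon
    have hone : finrank K M = 1 := by omega
    have hbot : M = ⊥ := IntermediateField.finrank_eq_one_iff.mp hone
    obtain ⟨ξ, hξ⟩ : ∃ ξ : AlgebraicClosure K, IsPrimitiveRoot ξ p := by
      have hnz : NeZero (p : AlgebraicClosure K) :=
        ⟨by exact_mod_cast hpf.out.ne_zero⟩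
      exact HasEnoughRootsOfUnity.exists_primitiveRoot (AlgebraicClosure K) p
    apply hnot ξ hξ
    rw [hbot]
    exact bot_le
  -- the representatives of the classes
  set r : Fin p → ι := fun t => if h : ∃ i, c i = t then h.choose else i₀ with hr
  have hrc : ∀ i, c (r (c i)) = c i := by
    intro i
    have h : ∃ i', c i' = c i := ⟨i, rfl⟩
    rw [hr]
    simp only [dif_pos h]
    exact h.choose_spec
  choose Φ P hPhi using fun t : Fin p =>
    h1 p ℂ_[p] (finrank K M) ((χ₀ (r t) δ : ℂ_[p]ˣ) : ℂ_[p]) hcop hlt (hprim (r t))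
  have hδm : δ ^ finrank K M = 1 := by rw [← horder]; exact pow_orderOf_eq_one δ
  have hTor : ∀ t, TorOK (P t) δ := by
    intro t
    refine h3 p ℂ_[p] (finrank K M) _ (Φ t) (P t) (hPhi t) K M δ hδm ?_
    intro ξ hξ
    refine exists_fix M δ hδ (finrank K M) horder hm0 ξ (hnot _ ?_)
    exact hξ.map_of_injective (f := M.val) M.val.injective
  obtain ⟨R, al, hD, hSel⟩ := h2 p ℂ_[p] hne L K M (finrank K M) δ horder rfl p P
    (fun t => TSet ιinf ιp (S (r t))) le_rfl
    (fun t => ⟨⟨_, Φ t, hPhi t⟩, hTor t, hcl (r t), hcard (r t)⟩)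
  refine ⟨{v | ∃ w ∈ R, Above w v}, below_finite hD.fin, ?_⟩
  refine (h5 p K ιinf ιp L M hcop hnot R al hD).mono ?_
  rintro N ⟨hN1, hN2, hN3⟩
  refine ⟨hN1, hN2, fun i => ?_⟩
  obtain ⟨hS, n, hn⟩ := hc i (r (c i)) (hrc i).symm
  refine hN3 (S i) (hcl i) (χ₀ i) (hinj i) δ (Φ (c i)) (P (c i)) horder ?_ ?_
  · rw [hn δ, Units.val_pow_eq_pow_val]
    exact phi_pow h4 (hPhi (c i)) n
  · intro x hx
    refine hSel (c i) x ?_
    rwa [hS] at hx

end Pool.Agent.Helper93.RL
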